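import Mathlib
import Pool.Agent.Y272.TY.Stm

set_option autoImplicit false

/-! # Typical parameters of the Multibrot sets: almost every angle -/

open Complex Filter Topology Metric Set MeasureTheory
open scoped ENNReal

namespace Pool.Agent.Y86.TY

open Pool.Agent.H712R2 Pool.Agent.H713R2 Pool.Agent.W677.Mar Pool.Agent.Y272.TY

theorem P_cont (d k : ℕ) : Continuous (P d k) := by
  induction k with
  | zero =>
    have h : P d 0 = fun _ => 0 := by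
      funext c
      exact P_zero d c
    rw [h]
    exact continuous_const
  | succ k ih =>
    have h : P d (k + 1) = fun c => (P d k c) ^ d + c := by
      funext c
      exact P_succ d k c
    rw [h]
    exact (ih.pow d).add continuous_id

theorem fatou_ex {μ : Measure ℝ} (g : ℕ → ℝ → ℝ≥0∞) (hg : ∀ i, Measurable (g i)) (Q : ℝ≥0∞)
    (hQ : Q ≠ ⊤) (h : ∀ i, ∫⁻ θ, g i θ ∂μ ≤ Q) :
    ∀ᵐ θ ∂μ, ∃ q : ℝ, 1 ≤ q ∧ ∃ᶠ i in atTop, g i θ ≤ ENNReal.ofReal q := by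
  have h1 : ∫⁻ θ, liminf (fun i => g i θ) atTop ∂μ ≤ Q := by
    refine (lintegral_liminf_le hg).trans ?_
    exact liminf_le_of_frequently_le' (Frequently.of_forall h)
  filter_upwards [ae_lt_top (Measurable.liminf hg) (ne_top_of_le_ne_top hQ h1)] with θ hθ
  obtain ⟨q, hq, _⟩ := ENNReal.lt_iff_exists_nnreal_btwn.1 hθ
  refine ⟨max 1 q, le_max_left _ _, ?_⟩
  refine (frequently_lt_of_liminf_lt (h := hq)).mono fun i hi => hi.le.trans ?_
  rw [← ENNReal.ofReal_coe_nnreal]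
  exact ENNReal.ofReal_le_ofReal (le_max_right _ _)

theorem lint_le (f : ℝ → ℝ) (hf : Continuous f) (h0 : ∀ θ, 0 ≤ f θ) (c : ℝ)
    (h : ∫ θ in (0 : ℝ)..(2 * Real.pi), f θ ≤ c) :
    ∫⁻ θ in Ioc 0 (2 * Real.pi), ENNReal.ofReal (f θ) ≤ ENNReal.ofReal c := by
  rw [← ofReal_integral_eq_lintegral_ofReal
    (hf.integrableOn_Ioc) (ae_of_all _ h0), ← intervalIntegral.integral_of_le Real.two_pi_pos.le]
  exact ENNReal.ofReal_le_ofReal h

section

variable {d : ℕ} {β : ℂ → ℂ} {L : ℕ → ℂ → ℂ}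

theorem mem_pt {ρ : ℝ} (h0 : 0 ≤ ρ) (h1 : ρ < 1) (θ : ℝ) : pt ρ θ ∈ ball (0 : ℂ) 1 := by
  rw [mem_ball_zero_iff, norm_pt ρ θ h0]
  exact h1

theorem L_cont (hL : IsLog d β L) (n : ℕ) {ρ : ℝ} (h0 : 0 ≤ ρ) (h1 : ρ < 1) :
    Continuous fun θ => L n (pt ρ θ) :=
  (hL.diff n).continuousOn.comp_continuous (continuous_pt ρ) fun θ => mem_pt h0 h1 θ

theorem norm_BB (hL : IsLog d β L) (n : ℕ) {ρ : ℝ} (h0 : 0 ≤ ρ) (h1 : ρ < 1) (θ : ℝ) :
    ‖BB d β n (pt ρ θ)‖ = Real.exp (L n (pt ρ θ)).re := by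
  rw [← hL.exp n _ (mem_pt h0 h1 θ), Complex.norm_exp]

/-- the maximal function -/
noncomputable def hs (L : ℕ → ℂ → ℂ) (r : ℕ) (ρ θ : ℝ) : ℝ≥0∞ :=
  ⨆ k ∈ Finset.range (2 ^ r + 1),
    ENNReal.ofReal ((∑ n ∈ Finset.range k, (L n (pt ρ θ)).re) ^ 2)

theorem hs_meas (hL : IsLog d β L) (r : ℕ) {ρ : ℝ} (h0 : 0 ≤ ρ) (h1 : ρ < 1) :
    Measurable (hs L r ρ) := by
  unfold hs
  refine Measurable.iSup fun k => Measurable.iSup fun _ => ?_
  refine Measurable.ennreal_ofReal (Measurable.pow_const ?_ 2)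
  refine Finset.measurable_sum _ fun n _ => ?_
  exact (Complex.continuous_re.comp (L_cont hL n h0 h1)).measurable

theorem le_hs {r : ℕ} {ρ θ q : ℝ} (hq : 0 ≤ q) (h : hs L r ρ θ ≤ ENNReal.ofReal q) {k : ℕ}
    (hk : k ≤ 2 ^ r) : (∑ n ∈ Finset.range k, (L n (pt ρ θ)).re) ^ 2 ≤ q := by
  have h1 : ENNReal.ofReal ((∑ n ∈ Finset.range k, (L n (pt ρ θ)).re) ^ 2) ≤ hs L r ρ θ := by
    unfold hs
    exact le_iSup₂_of_le (f := fun (k : ℕ) (_ : k ∈ Finset.range (2 ^ r + 1)) =>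
      ENNReal.ofReal ((∑ n ∈ Finset.range k, (L n (pt ρ θ)).re) ^ 2)) k
      (Finset.mem_range.2 (by omega)) le_rfl
  exact (ENNReal.ofReal_le_ofReal_iff hq).1 (h1.trans h)

theorem hs_int (hM : St_Max) (hL : IsLog d β L) {C : ℝ} (hC0 : 0 ≤ C)
    (hC : ∀ (a b : ℕ) (ρ : ℝ), a ≤ b → 0 ≤ ρ → ρ < 1 →
      ∫ θ in (0 : ℝ)..(2 * Real.pi), ‖∑ n ∈ Finset.Ico a b, L n (pt ρ θ)‖ ^ 2 ≤
        C * ((b : ℝ) - a)) (r : ℕ) {ρ : ℝ} (h0 : 0 ≤ ρ) (h1 : ρ < 1) :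
    ∫⁻ θ in Ioc 0 (2 * Real.pi), hs L r ρ θ ≤
      ENNReal.ofReal (C * ((r : ℝ) + 1) ^ 2 * 2 ^ r) := by
  refine hM ((volume : Measure ℝ).restrict (Ioc 0 (2 * Real.pi)))
    (fun n θ => (L n (pt ρ θ)).re) C hC0
    (fun n => (Complex.continuous_re.comp (L_cont hL n h0 h1)).measurable) (fun a b hab => ?_) r
  refine le_trans (lintegral_mono fun θ => ENNReal.ofReal_le_ofReal ?_)
    (lint_le (fun θ => ‖∑ n ∈ Finset.Ico a b, L n (pt ρ θ)‖ ^ 2)
      ((continuous_finsetSum _ fun n _ => L_cont hL n h0 h1).norm.pow 2)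
      (fun θ => by positivity) _ (hC a b ρ hab h0 h1))
  rw [← Complex.re_sum, ← sq_abs]
  exact pow_le_pow_left₀ (abs_nonneg _) (Complex.abs_re_le_norm _) 2

end

theorem sum_inv_sq (C : ℝ) : Summable fun n : ℕ => C * (1 / ((n : ℝ) + 1) ^ 2) := by
  apply Summable.mul_left
  have h := (summable_nat_add_iff 1).2 (Real.summable_one_div_nat_pow.2 (show 1 < 2 by norm_num))
  refine h.congr fun n => ?_
  push_cast
  rfl

theorem sum_geo (C : ℝ) : Summable fun i : ℕ => C * (((i : ℝ) + 1) ^ 2 * (1 / 2) ^ i) := by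
  apply Summable.mul_left
  have h0 : Summable fun n : ℕ => (n : ℝ) ^ 2 * (1 / 2 : ℝ) ^ n :=
    summable_pow_mul_geometric_of_norm_lt_one 2 (by rw [Real.norm_eq_abs]; norm_num)
  have h := (summable_nat_add_iff (f := fun n : ℕ => (n : ℝ) ^ 2 * (1 / 2 : ℝ) ^ n) 1).2 h0
  refine (h.mul_left 2).congr fun n => ?_
  push_cast
  ring

theorem rl_pos (d l : ℕ) : 0 < rl d l := Real.exp_pos _

theorem rl_lt {d : ℕ} (hd : 2 ≤ d) (l : ℕ) : rl d l < 1 := by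
  rw [rl, Real.exp_lt_one_iff]
  have : (0 : ℝ) < d := by
    have : 0 < d := by omega
    exact_mod_cast this
  have h : 0 < 4 / (d : ℝ) ^ l := by positivity
  linarith

theorem geo_le {d : ℕ} (hd : 2 ≤ d) (k : ℕ) : ∑ n ∈ Finset.range k, (d : ℝ) ^ n ≤ (d : ℝ) ^ k := by
  have hd' : (2 : ℝ) ≤ d := by exact_mod_cast hd
  induction k with
  | zero => simp
  | succ k ih =>
    rw [Finset.sum_range_succ, pow_succ]
    have : 0 < (d : ℝ) ^ k := by positivity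
    nlinarith

theorem BB_lim {d : ℕ} (hd : 2 ≤ d) (β : ℂ → ℂ) {ρ : ℕ → ℝ} (hρ0 : ∀ i, 0 < ρ i)
    (hρ : Tendsto ρ atTop (𝓝[<] 1)) {θ : ℝ} {c0 : ℂ}
    (h : Tendsto (fun ρ : ℝ => cc β (pt ρ θ)) (𝓝[<] 1) (𝓝 c0)) (n : ℕ) :
    Tendsto (fun i => ‖BB d β n (pt (ρ i) θ)‖) atTop (𝓝 ‖P d (n + 1) c0‖) := by
  have h1 : ∀ i, ‖BB d β n (pt (ρ i) θ)‖ = (ρ i) ^ (d ^ n) * ‖P d (n + 1) (cc β (pt (ρ i) θ))‖ := by
    intro i
    have hne : pt (ρ i) θ ≠ 0 := by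
      rw [← norm_pos_iff, norm_pt _ _ (hρ0 i).le]
      exact hρ0 i
    rw [BB_eq hd β n _ hne, norm_mul, norm_pow, norm_pt _ _ (hρ0 i).le]
    rfl
  have h2 : Tendsto (fun i => (ρ i) ^ (d ^ n)) atTop (𝓝 (1 ^ (d ^ n))) :=
    (hρ.mono_right nhdsWithin_le_nhds).pow _
  have h3 : Tendsto (fun i => ‖P d (n + 1) (cc β (pt (ρ i) θ))‖) atTop (𝓝 ‖P d (n + 1) c0‖) :=
    ((P_cont d (n + 1)).tendsto c0).norm.comp (h.comp hρ)
  have h4 := h2.mul h3
  rw [one_pow, one_mul] at h4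
  exact h4.congr fun i => (h1 i).symm

theorem log_two_le (k : ℕ) : Real.log 2 ≤ Real.log ((k : ℝ) + 2) :=
  Real.log_le_log two_pos (by have : (0 : ℝ) ≤ k := Nat.cast_nonneg k; linarith)

/-- comparison with `bb` -/
theorem bb_bound {q : ℝ} (hq : 1 ≤ q) (s : ℝ) (k : ℕ)
    (hs : ∀ r : ℕ, k ≤ 2 ^ r → s ^ 2 ≤ q * (2 ^ r * ((r : ℝ) + 1) ^ 4)) :
    |s| ≤ (√(2 * q) * (9 / Real.log 2 ^ 2)) * bb k := by
  have hl2 : 0 < Real.log 2 := Real.log_pos one_lt_two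
  have hlk := log_two_le k
  set r := Nat.clog 2 k with hr
  have h1 := hs r (Nat.le_pow_clog one_lt_two k)
  have h2 : (2 : ℝ) ^ r ≤ 2 * ((k : ℝ) + 1) := by
    rcases Nat.lt_or_ge 1 k with hk | hk
    · have h3 := Nat.pow_pred_clog_lt_self one_lt_two hk
      have h4 : 0 < r := Nat.clog_pos one_lt_two (by omega)
      have h5 : (2 : ℕ) ^ r = 2 * 2 ^ (r - 1) := by
        rw [← pow_succ']
        congr 1
        omega
      have h6 : (2 : ℕ) ^ r ≤ 2 * (k + 1) := by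
        rw [h5]
        have : 2 ^ (r - 1) < k := h3
        omega
      exact_mod_cast h6
    · have h4 : r = 0 := by
        rw [hr]
        exact Nat.clog_of_right_le_one hk 2
      rw [h4, pow_zero]
      have : (0 : ℝ) ≤ k := Nat.cast_nonneg k
      linarith
  have h3 : (r : ℝ) + 1 ≤ 3 / Real.log 2 * Real.log ((k : ℝ) + 2) := by
    have h4 : (r : ℝ) * Real.log 2 ≤ Real.log (2 * ((k : ℝ) + 1)) := by
      rw [← Real.log_pow]
      exact Real.log_le_log (by positivity) h2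
    have h5 : Real.log (2 * ((k : ℝ) + 1)) ≤ Real.log 2 + Real.log ((k : ℝ) + 2) := by
      rw [Real.log_mul two_ne_zero (by positivity)]
      have : Real.log ((k : ℝ) + 1) ≤ Real.log ((k : ℝ) + 2) :=
        Real.log_le_log (by positivity) (by linarith)
      linarith
    rw [div_mul_eq_mul_div, le_div_iff₀ hl2]
    nlinarith
  have hr0 : (0 : ℝ) ≤ (r : ℝ) + 1 := by positivity
  have h4 : ((r : ℝ) + 1) ^ 2 ≤ 9 / Real.log 2 ^ 2 * Real.log ((k : ℝ) + 2) ^ 2 := by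
    calc ((r : ℝ) + 1) ^ 2 ≤ (3 / Real.log 2 * Real.log ((k : ℝ) + 2)) ^ 2 :=
          pow_le_pow_left₀ hr0 h3 2
      _ = _ := by ring
  have h5 : |s| ≤ √(q * 2 ^ r) * ((r : ℝ) + 1) ^ 2 := by
    rw [← Real.sqrt_sq_eq_abs]
    have h6 : √(q * 2 ^ r) * ((r : ℝ) + 1) ^ 2 = √(q * (2 ^ r * ((r : ℝ) + 1) ^ 4)) := by
      rw [show q * (2 ^ r * ((r : ℝ) + 1) ^ 4) = (q * 2 ^ r) * (((r : ℝ) + 1) ^ 2) ^ 2 by ring,
        Real.sqrt_mul (show 0 ≤ q * 2 ^ r by positivity) _,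
        Real.sqrt_sq (show 0 ≤ ((r : ℝ) + 1) ^ 2 by positivity)]
    rw [h6]
    exact Real.sqrt_le_sqrt h1
  have h6 : √(q * 2 ^ r) ≤ √(2 * q) * √((k : ℝ) + 1) := by
    rw [← Real.sqrt_mul (by positivity)]
    apply Real.sqrt_le_sqrt
    nlinarith
  calc |s| ≤ √(q * 2 ^ r) * ((r : ℝ) + 1) ^ 2 := h5
    _ ≤ (√(2 * q) * √((k : ℝ) + 1)) * (9 / Real.log 2 ^ 2 * Real.log ((k : ℝ) + 2) ^ 2) := by
        gcongr
    _ = (√(2 * q) * (9 / Real.log 2 ^ 2)) * bb k := by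
        unfold bb
        ring

/-- the statement for one angle, depending only on the radius -/
def Good (d : ℕ) (β : ℂ → ℂ) (x : ℝ → ℂ) : Prop :=
  ∀ c0 : ℂ, Tendsto (fun ρ : ℝ => cc β (x ρ)) (𝓝[<] 1) (𝓝 c0) →
    ∃ A : ℝ, 0 ≤ A ∧
      (∀ n : ℕ, Real.exp (-(A * Real.log (n + 2))) ≤ ‖P d (n + 1) c0‖) ∧
      (∀ k : ℕ, |∑ n ∈ Finset.range k, Real.log ‖P d (n + 1) c0‖| ≤ A * bb k) ∧
      (∀ ε : ℝ, 0 < ε → ∀ᶠ i : ℕ in atTop, ∀ k : ℕ, k ≤ 2 ^ i →
        |∑ n ∈ Finset.range k, Real.log ‖P d (n + 1) (cc β (x (rl d (2 ^ i))))‖| ≤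
          ε * 2 ^ i)

theorem ae_periodic (Q : (ℝ → ℂ) → Prop)
    (h : ∀ᵐ θ ∂((volume : Measure ℝ).restrict (Ioc 0 (2 * Real.pi))), Q fun ρ => pt ρ θ) :
    ∀ᵐ θ : ℝ, Q fun ρ => pt ρ θ := by
  rw [ae_restrict_iff' measurableSet_Ioc, ae_iff] at h
  rw [ae_iff]
  refine measure_mono_null (t := ⋃ m : ℤ, (fun θ : ℝ => θ + m * (2 * Real.pi)) ⁻¹'
    {θ : ℝ | ¬ (θ ∈ Ioc 0 (2 * Real.pi) → Q fun ρ => pt ρ θ)}) ?_ ?_
  · intro θ hθ
    obtain ⟨m, hm, -⟩ := existsUnique_add_zsmul_mem_Ioc Real.two_pi_pos θ 0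
    rw [zsmul_eq_mul, zero_add] at hm
    refine mem_iUnion.2 ⟨m, ?_⟩
    intro hc
    apply hθ
    have h1 := hc hm
    have h2 : (fun ρ => pt ρ (θ + m * (2 * Real.pi))) = fun ρ => pt ρ θ := by
      funext ρ
      exact (pt_periodic ρ).int_mul m θ
    rw [h2] at h1
    exact h1
  · rw [measure_iUnion_null_iff]
    intro m
    rw [measure_preimage_add_right]
    exact h

theorem t (hL : St_Log) (hC : St_Circ) (hM : St_Max) (hN : St_Neg) : St_AE := by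
  intro d β hd hβ
  obtain ⟨L, hLog⟩ := hL d β hd hβ
  obtain ⟨C, hC0, hC1⟩ := hC d hd
  have hC2 := hC1 β L hβ hLog
  obtain ⟨κ, C', hκ, -, hC'0, hN1⟩ := hN d hd
  have hN2 := hN1 β L hβ hLog
  obtain ⟨ρ, -, hρ01, hρt⟩ := exists_seq_strictMono_tendsto' (show (0 : ℝ) < 1 from one_pos)
  have hρ0 : ∀ i, 0 < ρ i := fun i => (hρ01 i).1
  have hρ1 : ∀ i, ρ i < 1 := fun i => (hρ01 i).2
  have hρ : Tendsto ρ atTop (𝓝[<] 1) :=
    tendsto_nhdsWithin_iff.2 ⟨hρt, Eventually.of_forall hρ1⟩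
  have hl2 : 0 < Real.log 2 := Real.log_pos one_lt_two
  -- the three families
  have E1 : ∀ᵐ θ ∂((volume : Measure ℝ).restrict (Ioc 0 (2 * Real.pi))), ∃ q : ℝ, 1 ≤ q ∧
      ∃ᶠ i in atTop, (∑' n : ℕ, ENNReal.ofReal (1 / ((n : ℝ) + 1) ^ 2) *
        ENNReal.ofReal (‖BB d β n (pt (ρ i) θ)‖ ^ (-κ))) ≤ ENNReal.ofReal q := by
    have hcont : ∀ i n, Continuous fun θ => ‖BB d β n (pt (ρ i) θ)‖ ^ (-κ) := by
      intro i n
      have h1 : (fun θ => ‖BB d β n (pt (ρ i) θ)‖ ^ (-κ)) =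
          fun θ => Real.exp (L n (pt (ρ i) θ)).re ^ (-κ) := by
        funext θ
        rw [norm_BB hLog n (hρ0 i).le (hρ1 i)]
      rw [h1]
      exact (Real.continuous_exp.comp (Complex.continuous_re.comp
        (L_cont hLog n (hρ0 i).le (hρ1 i)))).rpow_const fun θ => Or.inl (Real.exp_pos _).ne'
    refine fatou_ex (fun i θ => ∑' n : ℕ, ENNReal.ofReal (1 / ((n : ℝ) + 1) ^ 2) *
        ENNReal.ofReal (‖BB d β n (pt (ρ i) θ)‖ ^ (-κ))) (fun i => ?_)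
      (∑' n : ℕ, ENNReal.ofReal (C' * (1 / ((n : ℝ) + 1) ^ 2))) ?_ fun i => ?_
    · exact Measurable.tsum fun n => ((hcont i n).measurable.ennreal_ofReal).const_mul _
    · exact (sum_inv_sq C').tsum_ofReal_ne_top
    · rw [lintegral_tsum fun n => (((hcont i n).measurable.ennreal_ofReal).const_mul _).aemeasurable]
      refine ENNReal.tsum_le_tsum fun n => ?_
      rw [lintegral_const_mul _ (hcont i n).measurable.ennreal_ofReal, mul_comm C',
        ENNReal.ofReal_mul (by positivity)]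
      gcongr
      exact lint_le _ (hcont i n) (fun θ => by positivity) _ (hN2 n (ρ i) (hρ0 i).le (hρ1 i))
  have E2 : ∀ᵐ θ ∂((volume : Measure ℝ).restrict (Ioc 0 (2 * Real.pi))), ∃ q : ℝ, 1 ≤ q ∧
      ∃ᶠ i in atTop, (∑' r : ℕ, ENNReal.ofReal (1 / (2 ^ r * ((r : ℝ) + 1) ^ 4)) *
        hs L r (ρ i) θ) ≤ ENNReal.ofReal q := by
    refine fatou_ex (fun i θ => ∑' r : ℕ, ENNReal.ofReal (1 / (2 ^ r * ((r : ℝ) + 1) ^ 4)) *
        hs L r (ρ i) θ) (fun i => ?_)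
      (∑' n : ℕ, ENNReal.ofReal (C * (1 / ((n : ℝ) + 1) ^ 2))) ?_ fun i => ?_
    · exact Measurable.tsum fun r => (hs_meas hLog r (hρ0 i).le (hρ1 i)).const_mul _
    · exact (sum_inv_sq C).tsum_ofReal_ne_top
    · rw [lintegral_tsum fun r =>
        ((hs_meas hLog r (hρ0 i).le (hρ1 i)).const_mul _).aemeasurable]
      refine ENNReal.tsum_le_tsum fun r => ?_
      rw [lintegral_const_mul _ (hs_meas hLog r (hρ0 i).le (hρ1 i))]
      refine (mul_le_mul_right (hs_int hM hLog hC0 hC2 r (hρ0 i).le (hρ1 i)) _).trans ?_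
      rw [← ENNReal.ofReal_mul (by positivity)]
      apply ENNReal.ofReal_le_ofReal
      apply le_of_eq
      field_simp
  have E3 : ∀ᵐ θ ∂((volume : Measure ℝ).restrict (Ioc 0 (2 * Real.pi))),
      ∑' i : ℕ, ENNReal.ofReal (1 / 4 ^ i) * hs L i (rl d (2 ^ i)) θ < ⊤ := by
    refine ae_lt_top (Measurable.tsum fun i =>
      (hs_meas hLog i (rl_pos d _).le (rl_lt hd _)).const_mul _) ?_
    rw [lintegral_tsum fun i =>
      ((hs_meas hLog i (rl_pos d _).le (rl_lt hd _)).const_mul _).aemeasurable]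
    refine ne_top_of_le_ne_top (sum_geo C).tsum_ofReal_ne_top (ENNReal.tsum_le_tsum fun i => ?_)
    rw [lintegral_const_mul _ (hs_meas hLog i (rl_pos d _).le (rl_lt hd _))]
    refine (mul_le_mul_right (hs_int hM hLog hC0 hC2 i (rl_pos d _).le (rl_lt hd _)) _).trans ?_
    rw [← ENNReal.ofReal_mul (by positivity)]
    apply ENNReal.ofReal_le_ofReal
    apply le_of_eq
    have h4 : (4 : ℝ) ^ i = 2 ^ i * 2 ^ i := by
      rw [← mul_pow]
      norm_num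
    rw [h4, one_div_pow]
    field_simp
  refine ae_periodic (Good d β) ?_
  filter_upwards [E1, E2, E3] with θ e1 e2 e3
  intro c0 hc0
  have hlim := BB_lim hd β hρ0 hρ hc0
  -- recurrence
  obtain ⟨q1, hq1, hf1⟩ := e1
  have hlq1 : 0 ≤ Real.log q1 := Real.log_nonneg hq1
  set A1 : ℝ := (Real.log q1 / Real.log 2 + 2) / κ with hA1
  have hA1' : 0 ≤ A1 := by positivity
  have R1 : ∀ n : ℕ, Real.exp (-(A1 * Real.log (n + 2))) ≤ ‖P d (n + 1) c0‖ := by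
    intro n
    refine ge_of_tendsto_of_frequently (hlim n) (hf1.mono fun i hi => ?_)
    have h1 : ENNReal.ofReal (1 / ((n : ℝ) + 1) ^ 2) *
        ENNReal.ofReal (‖BB d β n (pt (ρ i) θ)‖ ^ (-κ)) ≤ ENNReal.ofReal q1 :=
      (ENNReal.le_tsum n).trans hi
    rw [← ENNReal.ofReal_mul (by positivity), ENNReal.ofReal_le_ofReal_iff (by linarith),
      norm_BB hLog n (hρ0 i).le (hρ1 i), ← Real.exp_mul, one_div, inv_mul_le_iff₀ (by positivity)]
      at h1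
    rw [norm_BB hLog n (hρ0 i).le (hρ1 i), Real.exp_le_exp]
    set x := (L n (pt (ρ i) θ)).re with hx
    have h2 : x * -κ ≤ Real.log (((n : ℝ) + 1) ^ 2 * q1) := by
      rw [← Real.log_exp (x * -κ)]
      exact Real.log_le_log (Real.exp_pos _) h1
    rw [Real.log_mul (by positivity) (by positivity), Real.log_pow] at h2
    push_cast at h2
    have h3 : Real.log ((n : ℝ) + 1) ≤ Real.log ((n : ℝ) + 2) :=
      Real.log_le_log (by positivity) (by linarith)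
    have h4 := log_two_le n
    have h5 : Real.log q1 ≤ Real.log q1 / Real.log 2 * Real.log ((n : ℝ) + 2) := by
      rw [div_mul_eq_mul_div, le_div_iff₀ hl2]
      nlinarith
    have h6 : κ * (A1 * Real.log ((n : ℝ) + 2)) =
        (Real.log q1 / Real.log 2 + 2) * Real.log ((n : ℝ) + 2) := by
      rw [hA1]
      field_simp
    nlinarith
  have hP : ∀ n, 0 < ‖P d (n + 1) c0‖ := fun n => lt_of_lt_of_le (Real.exp_pos _) (R1 n)
  -- sums
  obtain ⟨q2, hq2, hf2⟩ := e2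
  have hlog : ∀ k : ℕ, Tendsto (fun i => ∑ n ∈ Finset.range k, (L n (pt (ρ i) θ)).re) atTop
      (𝓝 (∑ n ∈ Finset.range k, Real.log ‖P d (n + 1) c0‖)) := by
    intro k
    refine tendsto_finsetSum _ fun n _ => ?_
    have h1 := (Real.continuousAt_log (hP n).ne').tendsto.comp (hlim n)
    refine h1.congr fun i => ?_
    rw [Function.comp_apply, norm_BB hLog n (hρ0 i).le (hρ1 i), Real.log_exp]
  have R2 : ∀ k : ℕ, |∑ n ∈ Finset.range k, Real.log ‖P d (n + 1) c0‖| ≤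
      (√(2 * q2) * (9 / Real.log 2 ^ 2)) * bb k := by
    intro k
    refine bb_bound hq2 _ k fun r hr => ?_
    refine le_of_tendsto_of_frequently ((hlog k).pow 2) (hf2.mono fun i hi => ?_)
    have h1 : ENNReal.ofReal (1 / (2 ^ r * ((r : ℝ) + 1) ^ 4)) * hs L r (ρ i) θ ≤
        ENNReal.ofReal q2 := (ENNReal.le_tsum r).trans hi
    have h2 : hs L r (ρ i) θ ≤ ENNReal.ofReal (q2 * (2 ^ r * ((r : ℝ) + 1) ^ 4)) := by
      have h3 := mul_le_mul_right h1 (ENNReal.ofReal (2 ^ r * ((r : ℝ) + 1) ^ 4))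
      rw [← mul_assoc, ← ENNReal.ofReal_mul (by positivity), mul_one_div_cancel (by positivity),
        ENNReal.ofReal_one, one_mul, ← ENNReal.ofReal_mul (by positivity), mul_comm _ q2] at h3
      exact h3
    exact le_hs (by positivity) h2 hr
  -- circles
  have R3 : ∀ ε : ℝ, 0 < ε → ∀ᶠ i : ℕ in atTop, ∀ k : ℕ, k ≤ 2 ^ i →
      |∑ n ∈ Finset.range k, Real.log ‖P d (n + 1) (cc β (pt (rl d (2 ^ i)) θ))‖| ≤
        ε * 2 ^ i := by
    intro ε hε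
    have h1 := ENNReal.tendsto_atTop_zero_of_tsum_ne_top e3.ne
    have h2 : ∀ᶠ i : ℕ in atTop, ENNReal.ofReal (1 / 4 ^ i) * hs L i (rl d (2 ^ i)) θ ≤
        ENNReal.ofReal ((ε / 2) ^ 2) := by
      have h3 : (0 : ℝ≥0∞) < ENNReal.ofReal ((ε / 2) ^ 2) := ENNReal.ofReal_pos.2 (by positivity)
      exact (h1.eventually (gt_mem_nhds h3)).mono fun i hi => le_of_lt hi
    have h3 : ∀ᶠ i : ℕ in atTop, 4 ≤ ε / 2 * (2 : ℝ) ^ i := by
      have h4 : Tendsto (fun i : ℕ => ε / 2 * (2 : ℝ) ^ i) atTop atTop :=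
        (tendsto_pow_atTop_atTop_of_one_lt one_lt_two).const_mul_atTop (by positivity)
      exact h4.eventually_ge_atTop 4
    filter_upwards [h2, h3] with i hi1 hi2
    intro k hk
    have h4 : hs L i (rl d (2 ^ i)) θ ≤ ENNReal.ofReal ((ε / 2 * 2 ^ i) ^ 2) := by
      have h5 := mul_le_mul_right hi1 (ENNReal.ofReal (4 ^ i))
      rw [← mul_assoc, ← ENNReal.ofReal_mul (by positivity), mul_one_div_cancel (by positivity),
        ENNReal.ofReal_one, one_mul, ← ENNReal.ofReal_mul (by positivity)] at h5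
      refine h5.trans (ENNReal.ofReal_le_ofReal (le_of_eq ?_))
      have h6 : (4 : ℝ) ^ i = 2 ^ i * 2 ^ i := by
        rw [← mul_pow]
        norm_num
      rw [h6]
      ring
    have h5 := le_hs (L := L) (by positivity) h4 hk
    have h6 : |∑ n ∈ Finset.range k, (L n (pt (rl d (2 ^ i)) θ)).re| ≤ ε / 2 * 2 ^ i :=
      abs_le_of_sq_le_sq h5 (by positivity)
    have hd0 : (0 : ℝ) < d := by
      have : 0 < d := by omega
      exact_mod_cast this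
    have h7 : ∀ n, Real.log ‖P d (n + 1) (cc β (pt (rl d (2 ^ i)) θ))‖ =
        (L n (pt (rl d (2 ^ i)) θ)).re + 4 / (d : ℝ) ^ (2 ^ i) * (d : ℝ) ^ n := by
      intro n
      have hr0 := rl_pos d (2 ^ i)
      have hne : pt (rl d (2 ^ i)) θ ≠ 0 := by
        rw [← norm_pos_iff, norm_pt _ _ hr0.le]
        exact hr0
      have h8 : ‖BB d β n (pt (rl d (2 ^ i)) θ)‖ = (rl d (2 ^ i)) ^ (d ^ n) *
          ‖P d (n + 1) (cc β (pt (rl d (2 ^ i)) θ))‖ := by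
        rw [BB_eq hd β n _ hne, norm_mul, norm_pow, norm_pt _ _ hr0.le]
        rfl
      rw [norm_BB hLog n hr0.le (rl_lt hd _)] at h8
      have h9 : ‖P d (n + 1) (cc β (pt (rl d (2 ^ i)) θ))‖ ≠ 0 := by
        intro h0
        rw [h0, mul_zero] at h8
        exact (Real.exp_pos _).ne' h8
      have h10 := congrArg Real.log h8
      rw [Real.log_exp, Real.log_mul (by positivity) h9, Real.log_pow, rl, Real.log_exp] at h10
      rw [← rl] at h10
      push_cast at h10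
      rw [h10]
      ring
    rw [Finset.sum_congr rfl fun n _ => h7 n, Finset.sum_add_distrib, ← Finset.mul_sum]
    have h8 : 0 ≤ 4 / (d : ℝ) ^ (2 ^ i) * ∑ n ∈ Finset.range k, (d : ℝ) ^ n := by positivity
    have h9 : 4 / (d : ℝ) ^ (2 ^ i) * ∑ n ∈ Finset.range k, (d : ℝ) ^ n ≤ 4 := by
      have h10 : ∑ n ∈ Finset.range k, (d : ℝ) ^ n ≤ (d : ℝ) ^ (2 ^ i) := by
        refine (geo_le hd k).trans (pow_le_pow_right₀ ?_ hk)
        have : 1 ≤ d := by omega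
        exact_mod_cast this
      rw [div_mul_eq_mul_div, div_le_iff₀ (by positivity)]
      linarith
    refine (abs_add_le _ _).trans ?_
    rw [abs_of_nonneg h8]
    linarith
  have hbb : ∀ k, 0 ≤ bb k := fun k => by
    unfold bb
    positivity
  refine ⟨max A1 (√(2 * q2) * (9 / Real.log 2 ^ 2)), le_max_of_le_left hA1', fun n => ?_,
    fun k => ?_, R3⟩
  · refine le_trans (Real.exp_le_exp.2 ?_) (R1 n)
    have h1 : 0 ≤ Real.log ((n : ℝ) + 2) := hl2.le.trans (log_two_le n)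
    have h2 := mul_le_mul_of_nonneg_right
      (le_max_left A1 (√(2 * q2) * (9 / Real.log 2 ^ 2))) h1
    linarith
  · exact (R2 k).trans (mul_le_mul_of_nonneg_right (le_max_right _ _) (hbb k))

end Pool.Agent.Y86.TY
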